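import Pool.Agent.Y600.PPM.Easy
import Pool.Agent.Y600.PPM.Sim

/-!
# Classes of unbounded grid-width whose pattern problem is as easy as possible

The question MP_ab626d_lc asks whether `C`-Pattern PPM is `NP`-hard for every permutation class `C`
of unbounded grid-width. The starting result `SlowGridWidth` answers it: no, if `P ≠ NP`. Here it
is shown, without any assumption, that for every countable family of languages outside `P` (all of
`NP \ P`, all of `PSPACE \ P`, all computable languages outside `P`, ...) there is one class `C` of
unbounded grid-width, with grid-width growing as slowly as desired, such that no language of the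
family is polynomial-time Turing reducible to `C`-Pattern PPM.

Idea. If `h` is eventually constant, the problem for the class of all permutations whose patterns
`σ` have grid-width at most `h |σ|` is in `P` (starting library), and `P` relative to a language in
`P` is `P`. So every oracle algorithm makes, for every language outside `P`, a mistake which depends
only on a bounded part of the class; then the next value of `h` is allowed.
-/

set_option autoImplicit false

namespace Pool.Agent.Results.MP_ab626d_lc.NothingBelow

open Pool.Agent.NPC Pool.Agent.H593R3.PPM Filter
open Pool.Agent.H620R2.Gauge (IsP)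
open Pool.Agent.Y600.FB (chi)

/-- **Pattern problems of classes of unbounded grid-width with only languages of `P` below
them.** -/
theorem result :
    (∀ 𝓛 : Set (Set (List Bool)), 𝓛.Countable → (∀ L ∈ 𝓛, ¬ InP L) →
      ∀ g : ℕ → ℕ, Tendsto g atTop atTop →
      ∃ C : Set (List ℕ), PermClass C ∧ UnboundedGW C ∧ (∀ π ∈ C, gw π ≤ 4 + g π.length) ∧
        ∀ L ∈ 𝓛, ¬ IsP (chi (lang (PatternPPM C))) L) ∧
    ((∃ L : Set (List Bool), InNP L ∧ ¬ InP L) ↔
      ∃ C : Set (List ℕ), PermClass C ∧ UnboundedGW C ∧ ¬ NPHardP (PatternPPM C) ∧
        ∀ L, InNP L → IsP (chi (lang (PatternPPM C))) L → InP L) :=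
  Y600.PPM.full Pool.Agent.Y600.PPM.t_SIM4 Pool.Agent.Y600.PPM.t_RED4

end Pool.Agent.Results.MP_ab626d_lc.NothingBelow
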